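import Pool.Agent.X180.OP.Mix
import Pool.Agent.X180.OP.CanDefs

/-!
Varieties with canonical singularities over towers with orbifold steps and isotrivial steps.
-/

set_option autoImplicit false
set_option linter.overlappingInstances false

open FF Pool.Agent.W602.GT Pool.Agent.Y172 Pool.Agent.Y191 Pool.Agent.X180.Orb
open Pool.Agent.X180.TP (dims exists_idx)
open Pool.Agent.X180.Tow (HasForms dn trdeg_dn hor_nonneg hor_le rs)
open Pool.Agent.X180.Iso (hor)

namespace Pool.Agent.X180.OP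

variable {K : Type} [Field K] [Algebra ℂ K]

theorem hor_zero' (L : IntermediateField ℂ K) (P : Place ℂ K) : hor L (fun _ => 0) P = 0 := by
  unfold hor
  split_ifs <;> rfl

/-- the forms -/
theorem can_top {N l c : ℕ}
    {E : Fin (l + 1) → IntermediateField ℂ K} {D : Fin (l + 1) → ℕ} {e lam : Fin l → ℕ}
    {r s : Fin c → ℕ} {y : Fin (N + 1) → K}
    (hy : IsCanonicalVariety y (D (Fin.last l) + ∑ j, r j))
    (hT : IsMixedTower {P | IsPrimeDivisor y P} (fun _ => 0) E D e lam) {w : ∀ j, Fin (s j) → ℚ}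
    (hF : CanonicalFibres y (E (Fin.last l)) r s w) (hws : ∀ j, (r j + 1 : ℚ) ≤ ∑ i, w j i) :
    HasForms (D 0 + (∑ i, e i + ∑ j, r j)) {P | IsPrimeDivisor y P} (fun _ => 0) (E 0)
      (∑ i, e i + ∑ j, r j) (∑ i, lam i + big r s w) := by
  obtain ⟨hw, K', _, _, _, _, _, B, u, hB, hu, hH, hC⟩ := hF
  obtain ⟨κ, hκ, hκs⟩ := exists_idx r s w
  have h0 : HasForms (D (Fin.last l) + ∑ j, r j) {P | IsPrimeDivisor y P}
      (hor (E (Fin.last l)) fun _ => 0) (E (Fin.last l)) (∑ j, r j)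
      (Pool.Agent.X180.TP.big r s w) :=
    lc_low (N := D (Fin.last l) + ∑ j, r j)
      (Pool.Agent.X180.Iso.trdeg_rel' hy.2.1 (hT.1 _)) hB finSigmaFinEquiv hu
      (fun j i => ((hw j).2 i).1) hws hκ hκs
      (fun P hP => hor_nonneg le_rfl) (Pool.Agent.X180.Iso.lcHor_hor hH)
  have h1 := (mix_forms (fun _ _ => le_rfl) hT hy.2.1 rfl h0).mono (δ' := fun _ => 0)
    (fun P _ => (hor_zero' _ P).le)
  have hn : D (Fin.last l) + ∑ j, r j = D 0 + (∑ i, e i + ∑ j, r j) := by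
    rw [dims fun i => (hT.2 i).2.1, add_assoc]
  rw [hn] at h1
  exact h1

/-- **Nonvanishing for mixed towers.** -/
theorem can_non {N l c k : ℕ}
    {E : Fin (l + 1) → IntermediateField ℂ K} {D : Fin (l + 1) → ℕ} {e lam : Fin l → ℕ}
    {r s : Fin c → ℕ} {y : Fin (N + 1) → K}
    (hy : IsCanonicalVariety y (D (Fin.last l) + ∑ j, r j))
    (hT : IsMixedTower {P | IsPrimeDivisor y P} (fun _ => 0) E D e lam)
    {w : ∀ j, Fin (s j) → ℚ} (hF : CanonicalFibres y (E (Fin.last l)) r s w)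
    (hbase : ∀ lam' : ℕ, HasForms (D 0 + (∑ i, e i + ∑ j, r j)) {P | IsPrimeDivisor y P}
      (fun _ => 0) (E 0) (∑ i, e i + ∑ j, r j) lam' →
      KodairaGe (D 0 + (∑ i, e i + ∑ j, r j)) {P | IsPrimeDivisor y P} (fun _ => 0) (k + lam')) :
    CanonicalNonvanishing y (D (Fin.last l) + ∑ j, r j) (k + ∑ i, lam i + big r s w) r s w := by
  have h1 := can_top hy hT hF
  obtain ⟨hw, K', _, _, _, _, _, B, u, hB, hu, hH, hC⟩ := hF
  have hn : D (Fin.last l) + ∑ j, r j = D 0 + (∑ i, e i + ∑ j, r j) := by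
    rw [dims fun i => (hT.2 i).2.1, add_assoc]
  refine Pool.Agent.X180.TP.nonvanishing_of hy (by omega) hw hB hu hC fun hws => ?_
  have h2 := hbase _ (h1 hws)
  rw [← hn, ← add_assoc k] at h2
  exact h2

/-- **Abundance for mixed towers.** -/
theorem can_ab {N l c : ℕ}
    {E : Fin (l + 1) → IntermediateField ℂ K} {D : Fin (l + 1) → ℕ} {e lam : Fin l → ℕ}
    {r s : Fin c → ℕ} {y : Fin (N + 1) → K}
    (hy : IsCanonicalVariety y (D (Fin.last l) + ∑ j, r j))
    (hT : IsMixedTower {P | IsPrimeDivisor y P} (fun _ => 0) E D e lam) (hle : ∀ i, lam i = e i)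
    {w : ∀ j, Fin (s j) → ℚ} (hF : CanonicalFibres y (E (Fin.last l)) r s w)
    (hbase : ∀ lam' : ℕ, HasForms (D 0 + (∑ i, e i + ∑ j, r j)) {P | IsPrimeDivisor y P}
      (fun _ => 0) (E 0) (∑ i, e i + ∑ j, r j) lam' →
      KodairaGe (D 0 + (∑ i, e i + ∑ j, r j)) {P | IsPrimeDivisor y P} (fun _ => 0)
        (D 0 + lam')) :
    CanonicalAbundance y (D (Fin.last l) + ∑ j, r j) (D (Fin.last l)) r s w := by
  have h1 := can_top hy hT hF
  obtain ⟨hw, K', _, _, _, _, _, B, u, hB, hu, hH, hC⟩ := hF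
  have hsum : D (Fin.last l) = D 0 + ∑ i, e i := dims fun i => (hT.2 i).2.1
  have hn : D (Fin.last l) + ∑ j, r j = D 0 + (∑ i, e i + ∑ j, r j) := by
    rw [hsum, add_assoc]
  refine Pool.Agent.X180.TP.abundance_of hy hw hB hu hC fun hws => ?_
  have h2 := h1 hws
  rw [show ∑ i, lam i = ∑ i, e i from Finset.sum_congr rfl fun i _ => hle i] at h2
  have h3 := hbase _ h2
  rw [← hn, ← add_assoc (D 0), ← hsum] at h3
  exact h3

/-- forms over a point -/
theorem point_base {E : IntermediateField ℂ K} (hE : E = ⊥) {d e lam : ℕ}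
    (hd : Algebra.trdeg ℂ E = d) {S : Set (Place ℂ K)} {δ : Place ℂ K → ℝ}
    (h : HasForms (d + e) S δ E e lam) : d = 0 ∧ KodairaGe (d + e) S δ lam := by
  subst hE
  have h0 : d = 0 := by
    have h1 : Algebra.trdeg ℂ (⊥ : IntermediateField ℂ K) = 0 :=
      trdeg_eq_zero_iff.2 inferInstance
    rw [h1] at hd
    exact_mod_cast hd.symm
  subst h0
  refine ⟨rfl, ?_⟩
  rw [zero_add] at h ⊢
  exact point_kod h

end Pool.Agent.X180.OP
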