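import Pool.Agent.X180.OP.ProdDefs
import Pool.Agent.X180.OT.Forms
import Pool.Agent.X180.Multi.Pair
import Pool.Agent.X180.Multi.Gap

/-!
Forms over products of projective spaces, for pairs.
-/

set_option autoImplicit false
set_option linter.overlappingInstances false

open FF Module Pool.Agent.W602.Cov Pool.Agent.W602.GT Pool.Agent.Y172 Pool.Agent.Y191
open Pool.Agent.X180.Tow (HasForms)
open Pool.Agent.X180.Iso (hor)

namespace Pool.Agent.X180.OP

theorem trdeg_base {m : ℕ} {n : Fin m → ℕ} {K : Type} [Field K] [Algebra ℂ K]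
    {x : ∀ i, Fin (n i + 1) → K} (hind : AlgebraicIndependent ℂ (affine x)) :
    Algebra.trdeg ℂ (BaseField x) = (∑ i, n i : ℕ) := by
  let e : ((i : Fin m) × Fin (n i)) ≃ Fin (∑ i, n i) := finSigmaFinEquiv
  have h2 := Pool.Agent.X180.Multi.trdeg_adjoin (hind.comp e.symm e.symm.injective)
  have hrange : Set.range (affine x ∘ e.symm) = Set.range (affine x) :=
    e.symm.surjective.range_comp (affine x)
  rw [hrange] at h2
  exact h2

/-- **The forms of the base.** -/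
theorem prod_base {m s lam : ℕ} {n q : Fin m → ℕ} (hn : ∀ i, 1 ≤ n i)
    {ℓ : ∀ i, Fin (q i) → Form (n i)} (hℓ : ∀ i k, ℓ i k ≠ 0) (hr : ∀ i, ¬ Reducible (ℓ i))
    {d : Fin m → ℕ} (hd : ∀ i, Bound (ℓ i) (d i)) {K : Type} [Field K] [Algebra ℂ K]
    {x : ∀ i, Fin (n i + 1) → K} (hx0 : ∀ i, x i 0 ≠ 0)
    (hind : AlgebraicIndependent ℂ (affine x)) (hK : Algebra.trdeg ℂ K = (∑ i, n i + s : ℕ))
    {S : Set (Place ℂ K)} {Δ : Place ℂ K → ℚ} (hΔ : ∀ P ∈ S, 0 ≤ Δ P)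
    (hfin : {P | P ∈ S ∧ Δ P ≠ 0}.Finite)
    (hθ : HasForms (∑ i, n i + s) S (hor (BaseField x) fun P => (Δ P : ℝ)) (BaseField x) s lam) :
    (Multiplicities S Δ ℓ x d (· ≤ ·) →
      KodairaGe (∑ i, n i + s) S (fun P => (Δ P : ℝ)) lam) ∧
    (Multiplicities S Δ ℓ x d (· < ·) →
      KodairaGe (∑ i, n i + s) S (fun P => (Δ P : ℝ)) (∑ i, n i + lam)) := by
  classical
  have hd' : ∀ i, Pool.Agent.TH756.PR.Bnd (ℓ i) (d i) := fun i =>
    (hd i).imp id fun h => ⟨h.1, Or.inr h.2⟩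
  have hd1 : ∀ i, 1 ≤ d i := fun i => by
    rcases hd i with h | h
    · omega
    · omega
  have hspan : ∀ i, Submodule.span ℂ (Set.range (ℓ i)) = ⊤ := fun i =>
    Pool.Agent.W392.CG.span_top (hn i) (ℓ i) (hr i)
  have hlx : ∀ i k, Pool.Agent.W602.Cov.G.lf (ℓ i k) (x i) ≠ 0 := fun i k =>
    Pool.Agent.TH152.AC.lf_ne (hx0 i) (hind.comp
      (fun j : Fin (n i) => (⟨i, j⟩ : (i : Fin m) × Fin (n i))) (fun j j' h => by simpa using h))
      (hℓ i k)
  constructor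
  · intro hm
    refine (Pool.Agent.X180.Multi.multi_pair (X := S) (δ := fun P => (Δ P : ℝ)) (τ := 1)
      hn hℓ hr hd' hx0 hind hK (fun P hP => Rat.cast_nonneg.2 (hΔ P hP)) le_rfl
      (fun P hPX _ a v hord hsp hv0 => ?_) hθ).1
    have h1 := Pool.Agent.TH756.PR.nrm hspan hlx hord hsp
    obtain ⟨k, hk⟩ := hm P hPX a v h1.1 h1.2.1 h1.2.2 hv0
    refine ⟨k, ?_⟩
    have h3 := (Rat.cast_le (K := ℝ)).2 hk
    push_cast at h3
    rw [one_mul]
    exact h3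
  · intro hm
    obtain ⟨τ, hτ, hgap⟩ := Pool.Agent.X180.Multi.gap d hd1 hΔ hfin
    have hτ' : (1 : ℝ) < τ := by exact_mod_cast hτ
    refine (Pool.Agent.X180.Multi.multi_pair (X := S) (δ := fun P => (Δ P : ℝ)) (τ := (τ : ℝ))
      hn hℓ hr hd' hx0 hind hK (fun P hP => Rat.cast_nonneg.2 (hΔ P hP)) hτ'.le
      (fun P hPX _ a v hord hsp hv0 => ?_) hθ).2 hτ'
    have h1 := Pool.Agent.TH756.PR.nrm hspan hlx hord hsp
    obtain ⟨k, hk⟩ := hm P hPX a v h1.1 h1.2.1 h1.2.2 hv0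
    refine ⟨k, ?_⟩
    have h2 := hgap P hPX (fun i => v i (k i)) hk
    have h3 := (Rat.cast_le (K := ℝ)).2 h2
    push_cast at h3
    exact h3

end Pool.Agent.X180.OP
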