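import Pool.Agent.Y191.LcLow

/-!
The condition on the multiplicities at the places where the boundary has the coefficient one.
-/

set_option autoImplicit false
set_option linter.overlappingInstances false
set_option linter.unusedSectionVars false

open FF Pool.Agent.W602.GT Pool.Agent.W603.LV Pool.Agent.TH585.SV Pool.Agent.W619.PQ
open Pool.Agent.Y172 Pool.Agent.Y191

namespace Pool.Agent.X180.OP

section exch

variable {F : Type} [Field F] {q r : ℕ} {a : Fin q → Fin (r + 1) → F} {e : Fin q → ℕ}

open Classical in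
/-- the forms of high multiplicity are spanned by those of a basis with maximal multiplicities -/
theorem exch {I : Fin (r + 1) → Fin q} (hI : (Matrix.of fun k b => a (I k) b).det ≠ 0)
    (hmax : ∀ I' : Fin (r + 1) → Fin q, (Matrix.of fun k b => a (I' k) b).det ≠ 0 →
      ∑ k, e (I' k) ≤ ∑ k, e (I k)) (t : ℕ) :
    Module.finrank F ↥(Submodule.span F (a '' {i | t < e i})) ≤
      (Finset.univ.filter fun k => t < e (I k)).card := by
  classical
  obtain ⟨B, hB⟩ : ∃ B, B = Finset.univ.filter fun k => t < e (I k) := ⟨_, rfl⟩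
  rw [← hB]
  have h1 : Submodule.span F (a '' {i | t < e i}) ≤
      Submodule.span F ((fun k => a (I k)) '' (B : Set (Fin (r + 1)))) := by
    refine Submodule.span_le.2 ?_
    rintro _ ⟨i, hi, rfl⟩
    obtain ⟨M, hM⟩ : ∃ M, M = (Matrix.of fun k b => a (I k) b) := ⟨_, rfl⟩
    obtain ⟨c, hc⟩ : ∃ c : Fin (r + 1) → F, c = Matrix.vecMul (a i) M⁻¹ := ⟨_, rfl⟩
    have hMu : IsUnit M.det := by
      rw [hM]
      exact isUnit_iff_ne_zero.2 hI
    have h2 : Matrix.vecMul c M = a i := by
      rw [hc, Matrix.vecMul_vecMul, Matrix.nonsing_inv_mul _ hMu, Matrix.vecMul_one]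
    have h3 : a i = ∑ k, c k • a (I k) := by
      rw [← h2]
      funext b
      rw [Finset.sum_apply]
      simp [Matrix.vecMul, dotProduct, hM]
    have h4 : ∀ k, k ∉ B → c k = 0 := by
      intro k0 hk0
      by_contra hck
      have h5 : ¬ t < e (I k0) := fun h => hk0 (by rw [hB]; simp [h])
      have h6 : (Matrix.of fun k b => a (Function.update I k0 i k) b) = M.updateRow k0 (a i) := by
        ext k b
        by_cases hk : k = k0
        · subst hk
          simp
        · simp [hk, hM]
      have h7 : (Matrix.of fun k b => a (Function.update I k0 i k) b).det ≠ 0 := by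
        rw [h6, ← h2]
        have h8 : Matrix.vecMul c M = ∑ k, c k • M k := by
          funext b
          rw [Finset.sum_apply]
          simp [Matrix.vecMul, dotProduct]
        rw [h8, Matrix.det_updateRow_sum]
        rw [smul_eq_mul]
        exact mul_ne_zero hck hMu.ne_zero
      have h8 := hmax _ h7
      have h9 : ∑ k, e (Function.update I k0 i k) + e (I k0) = ∑ k, e (I k) + e i := by
        rw [← Finset.add_sum_erase _ _ (Finset.mem_univ k0),
          ← Finset.add_sum_erase (a := k0) _ (fun k => e (I k)) (Finset.mem_univ k0)]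
        have h10 : ∑ k ∈ Finset.univ.erase k0, e (Function.update I k0 i k) =
            ∑ k ∈ Finset.univ.erase k0, e (I k) :=
          Finset.sum_congr rfl fun k hk => by
            rw [Function.update_of_ne (Finset.ne_of_mem_erase hk)]
        rw [h10, Function.update_self]
        ring
      have h10 : t < e i := hi
      omega
    rw [SetLike.mem_coe, h3]
    refine Submodule.sum_mem _ fun k _ => ?_
    by_cases hk : k ∈ B
    · exact Submodule.smul_mem _ _ (Submodule.subset_span ⟨k, hk, rfl⟩)
    · rw [h4 k hk, zero_smul]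
      exact Submodule.zero_mem _
  refine (Submodule.finrank_mono h1).trans ?_
  have h2 : (fun k => a (I k)) '' (B : Set (Fin (r + 1))) =
      ((B.image fun k => a (I k) : Finset (Fin (r + 1) → F)) : Set (Fin (r + 1) → F)) := by
    rw [Finset.coe_image]
  rw [h2]
  exact (finrank_span_finset_le_card _).trans Finset.card_image_le

theorem sum_levels {ι : Type*} (s : Finset ι) (f : ι → ℚ) (e : ι → ℕ) {T : ℕ}
    (hT : ∀ i ∈ s, e i ≤ T) :
    ∑ i ∈ s, f i * e i = ∑ t ∈ Finset.range T, ∑ i ∈ s.filter (fun i => t < e i), f i := by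
  classical
  have h1 : ∀ i ∈ s, (e i : ℚ) = ∑ t ∈ Finset.range T, if t < e i then 1 else 0 := by
    intro i hi
    rw [Finset.sum_ite, Finset.sum_const_zero, add_zero, Finset.sum_const, nsmul_eq_mul, mul_one]
    have h2 : (Finset.range T).filter (fun t => t < e i) = Finset.range (e i) := by
      ext t
      simp only [Finset.mem_filter, Finset.mem_range]
      have := hT i hi
      omega
    rw [h2, Finset.card_range]
  calc ∑ i ∈ s, f i * e i = ∑ i ∈ s, ∑ t ∈ Finset.range T, (if t < e i then f i else 0) := by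
        refine Finset.sum_congr rfl fun i hi => ?_
        rw [h1 i hi, Finset.mul_sum]
        refine Finset.sum_congr rfl fun t _ => ?_
        split_ifs <;> simp
    _ = ∑ t ∈ Finset.range T, ∑ i ∈ s, (if t < e i then f i else 0) := Finset.sum_comm
    _ = _ := by
        refine Finset.sum_congr rfl fun t _ => ?_
        rw [Finset.sum_filter]

end exch

section mx

variable {K : Type} [Field K] [Algebra ℂ K] {c : ℕ} {r q : Fin c → ℕ}
variable {A : ∀ j, Fin (q j) → Fin (r j + 1) → K} {L : IntermediateField ℂ K}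

/-- the greatest sum of multiplicities is at least the weighted one -/
theorem le_mx {w : ∀ j, Fin (q j) → ℚ} (hA : LcArr L A w) (hw0 : ∀ j i, 0 ≤ w j i)
    (hws : ∀ j, (r j + 1 : ℚ) ≤ ∑ i, w j i) (j : Fin c) {e : Fin (q j) → ℕ}
    (he : rk A j (Finset.univ.filter fun i => 0 < e i) ≤ r j) :
    ∑ i, w j i * e i ≤ mx A j e := by
  classical
  obtain ⟨I0, hI0, -⟩ := hA.pos_basis hw0 hws j
  obtain ⟨I, hI, hmx⟩ := Finset.exists_mem_eq_sup (Finset.univ.filter
    fun I : Fin (r j + 1) → Fin (q j) => (Matrix.of fun k a => A j (I k) a).det ≠ 0)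
    ⟨I0, Finset.mem_filter.2 ⟨Finset.mem_univ _, hI0⟩⟩ fun I => ∑ k, e (I k)
  have hI' := (Finset.mem_filter.1 hI).2
  have hmx' : mx A j e = ∑ k, e (I k) := hmx
  have hmax : ∀ I' : Fin (r j + 1) → Fin (q j), (Matrix.of fun k b => A j (I' k) b).det ≠ 0 →
      ∑ k, e (I' k) ≤ ∑ k, e (I k) := by
    intro I' h'
    rw [← hmx']
    exact Finset.le_sup (f := fun I : Fin (r j + 1) → Fin (q j) => ∑ k, e (I k))
      (Finset.mem_filter.2 ⟨Finset.mem_univ _, h'⟩)
  obtain ⟨T, hT⟩ : ∃ T, ∀ i, e i ≤ T := ⟨Finset.univ.sup e, fun i => Finset.le_sup (Finset.mem_univ i)⟩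
  have h1 := sum_levels Finset.univ (w j) e (T := T) fun i _ => hT i
  have h2 := sum_levels Finset.univ (fun _ : Fin (r j + 1) => (1 : ℚ)) (fun k => e (I k))
    (T := T) fun k _ => hT _
  have h3 : (mx A j e : ℚ) = ∑ t ∈ Finset.range T,
      ∑ k ∈ (Finset.univ.filter fun k => t < e (I k)), (1 : ℚ) := by
    rw [← h2, hmx']
    push_cast
    simp
  rw [h1, h3]
  refine Finset.sum_le_sum fun t _ => ?_
  have h4 : Submodule.span K (A j '' ((Finset.univ.filter fun i => t < e i :
      Finset (Fin (q j))) : Set (Fin (q j)))) = Submodule.span K (A j '' {i | t < e i}) := by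
    congr 2
    ext i
    simp
  have h5 : rk A j (Finset.univ.filter fun i => t < e i) ≤ r j := by
    refine le_trans ?_ he
    unfold rk
    refine Submodule.finrank_mono (Submodule.span_mono (Set.image_mono ?_))
    intro i hi
    simp only [Finset.coe_filter, Finset.mem_univ, true_and, Set.mem_ofPred_eq] at hi ⊢
    omega
  have h6 := hA.2 j _ h5
  have h7 := exch hI' hmax t
  have h8 : rk A j (Finset.univ.filter fun i => t < e i) ≤
      (Finset.univ.filter fun k => t < e (I k)).card := by
    unfold rk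
    rw [h4]
    exact h7
  refine h6.trans ?_
  rw [Finset.sum_const, nsmul_eq_mul, mul_one]
  exact_mod_cast h8

/-- the hyperplanes through the centre of a place have a common point -/
theorem rk_mord {w : ∀ j, Fin (q j) → ℚ} (hA : LcArr L A w) {P : Place ℂ K}
    (hP : ∀ f ∈ L, f ≠ 0 → P.ord f = 0) (j : Fin c) {x : Fin (r j + 1) → K} {c' : ℤ}
    {e : Fin (q j) → ℕ} (ho : MOrd P (A j) x c' e) :
    rk A j (Finset.univ.filter fun i => 0 < e i) ≤ r j := by
  classical
  by_contra hcon
  have h2 : rk A j (Finset.univ.filter fun i => 0 < e i) = r j + 1 :=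
    le_antisymm (rk_le A j _) (by omega)
  obtain ⟨f, hf, -, hli⟩ := Submodule.exists_fun_fin_finrank_span_eq K
    (A j '' ((Finset.univ.filter fun i => 0 < e i : Finset (Fin (q j))) : Set (Fin (q j))))
  choose I hI hIf using hf
  obtain ⟨M, hM⟩ : ∃ M : Matrix (Fin (r j + 1)) (Fin (r j + 1)) K,
      M = Matrix.of fun k a => A j (I (Fin.cast h2.symm k)) a := ⟨_, rfl⟩
  have h3 : LinearIndependent K fun k : Fin (r j + 1) => A j (I (Fin.cast h2.symm k)) := by
    have h4 := hli.comp (Fin.cast h2.symm) (Fin.cast_injective _)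
    have h5 : (fun k : Fin (r j + 1) => A j (I (Fin.cast h2.symm k))) =
        f ∘ (Fin.cast h2.symm) := funext fun k => hIf _
    rw [h5]
    exact h4
  have hdet : M.det ≠ 0 := by
    intro h0
    have h2 := (Matrix.linearIndependent_rows_iff_isUnit
      (A := Matrix.of fun k a => A j (I (Fin.cast h2.symm k)) a)).1 h3
    rw [Matrix.isUnit_iff_isUnit_det, ← hM, h0] at h2
    exact not_isUnit_zero h2
  have halg : ∀ k b, IsAlgebraic L (M k b) := fun k b => by
    rw [hM]
    exact (hA.1 _ _).2 _
  have hd0 : P.ord M.det = 0 := triv_ord0 hP (alg_det halg) hdet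
  -- the coordinates
  have hx : ∀ b, M.det * x b = ∑ k, M.adjugate b k * ∑ b', M k b' * x b' := by
    intro b
    have h4 : Matrix.mulVec M.adjugate (Matrix.mulVec M x) = M.det • x := by
      rw [Matrix.mulVec_mulVec, Matrix.adjugate_mul, Matrix.smul_mulVec, Matrix.one_mulVec]
    have h5 := congrFun h4 b
    rw [Pi.smul_apply, smul_eq_mul] at h5
    rw [← h5]
    rfl
  have hadj : ∀ b k, Ge P 0 (M.adjugate b k) := by
    intro b k
    rw [Matrix.adjugate_apply]
    refine triv_ge hP (alg_det fun i i' => ?_)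
    by_cases hi : i = k
    · subst hi
      rw [Matrix.updateRow_self]
      by_cases hb : i' = b
      · subst hb
        rw [Pi.single_eq_same]
        exact isAlgebraic_one
      · rw [Pi.single_eq_of_ne hb]
        exact isAlgebraic_zero
    · rw [Matrix.updateRow_ne hi]
      exact halg _ _
  obtain ⟨b, hb0, hb⟩ := ho.2.1
  have h6 : Ge P (c' + 1) (M.det * x b) := by
    rw [hx b]
    refine Ge.sum _ _ fun k _ => ?_
    have h7 : Ge P (c' + 1) (∑ b', M k b' * x b') := by
      right
      have h8 := ho.2.2 (I (Fin.cast h2.symm k))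
      have h9 : ∑ b', M k b' * x b' = ∑ b', A j (I (Fin.cast h2.symm k)) b' * x b' := by
        rw [hM]
        rfl
      rw [h9, h8]
      have h10 := hI (Fin.cast h2.symm k)
      simp only [Finset.coe_filter, Finset.mem_univ, true_and, Set.mem_ofPred_eq] at h10
      omega
    have := (hadj b k).mul h7
    rwa [zero_add] at this
  rcases h6 with h6 | h6
  · exact mul_ne_zero hdet hb0 h6
  · rw [P.ord_mul hdet hb0, hd0, hb] at h6
    omega

end mx

section

variable {K K' : Type} [Field K] [Field K'] [Algebra ℂ K] [Algebra ℂ K'] [Algebra K K']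
  [IsScalarTower ℂ K K'] [FiniteDimensional K K'] {c : ℕ} {r q : Fin c → ℕ}
variable {A : ∀ j, Fin (q j) → Fin (r j + 1) → K'} {u : (Σ j, Fin (r j)) → K'}
variable {L : IntermediateField ℂ K} {w : ∀ j, Fin (q j) → ℚ}

/-- **No condition at the places where the boundary has the coefficient one.** -/
theorem lcHor_full (hA : LcArr (upF K' L) A w) (hw0 : ∀ j i, 0 ≤ w j i)
    (hws : ∀ j, (r j + 1 : ℚ) ≤ ∑ i, w j i) {X : Set (Place ℂ K)} {δ : Place ℂ K → ℝ}
    (hH : LcHor L A u w {P | P ∈ X ∧ δ P < 1} δ) : LcHor L A u w X δ := by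
  intro P hP htr Q ε hQ c' e ho
  by_cases hδ : δ P < 1
  · exact hH P ⟨hP, hδ⟩ htr Q ε hQ c' e ho
  have hε0 : (0 : ℝ) ≤ ε := Nat.cast_nonneg _
  have h1 : (ε : ℝ) * (1 - δ P) ≤ 0 := mul_nonpos_of_nonneg_of_nonpos hε0 (by linarith)
  refine h1.trans ?_
  have hup : ∀ f ∈ upF K' L, f ≠ 0 → Q.ord f = 0 := by
    rintro f hf hf0
    obtain ⟨a, ha, rfl⟩ := mem_upF.1 hf
    have ha0 : a ≠ 0 := fun h => hf0 (by rw [h, map_zero])
    rw [hQ.2, htr a ha ha0, mul_zero]
  split_ifs
  · refine Finset.sum_nonneg fun j _ => sub_nonneg.2 ?_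
    have h2 := le_mx hA hw0 hws j (rk_mord hA hup j (ho j))
    have h3 := (Rat.cast_le (K := ℝ)).2 h2
    push_cast at h3
    exact h3
  · exact zero_le_one

end

end Pool.Agent.X180.OP
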