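import Pool.Agent.X180.OP.Mix
import Pool.Agent.X180.OP.MixDefsB

/-!
Pairs over towers all of whose steps are of log general type.
-/

set_option autoImplicit false
set_option linter.overlappingInstances false

open FF Pool.Agent.W602.GT Pool.Agent.Y172 Pool.Agent.Y191 Pool.Agent.X180.Orb
open Pool.Agent.X180.TP (dims)
open Pool.Agent.X180.Tow (HasForms dn trdeg_dn hor_nonneg hor_le rs)
open Pool.Agent.X180.Iso (hor)

namespace Pool.Agent.X180.OP

variable {K : Type} [Field K] [Algebra ℂ K]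

theorem zero_forms {N : ℕ} {S : Set (Place ℂ K)} {δ : Place ℂ K → ℝ} (hδ : ∀ P ∈ S, 0 ≤ δ P)
    (L : IntermediateField ℂ K) : HasForms N S (hor L δ) L 0 0 := by
  refine ⟨1, one_pos, fun _ _ => 1, fun b => ⟨fun A D => ?_, fun P hP _ G _ => Or.inr ?_⟩,
    fun i => i.elim0, one_ne_zero, ?_⟩
  · simp
  · have h1 := hor_nonneg (L := L) (hδ P hP)
    rw [P.ord_one]
    push_cast
    linarith
  · exact algebraicIndependent_empty_type

theorem alg_of_trdeg {L : IntermediateField ℂ K} {n : ℕ} (hK : Algebra.trdeg ℂ K = n)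
    (hL : Algebra.trdeg ℂ L = n) : Algebra.IsAlgebraic L K := by
  have h5 := _root_.trdeg_add_eq ℂ L (A := K)
  rw [hK, hL] at h5
  have h6 : Algebra.trdeg L K = 0 := by
    have h7 : (n : Cardinal) + Algebra.trdeg L K = n + 0 := by rw [add_zero]; exact h5
    exact Cardinal.eq_of_add_eq_add_left h7 Cardinal.natCast_lt_aleph0
  exact trdeg_eq_zero_iff.1 h6

theorem no_irred {σ F : Type} [IsEmpty σ] [Field F] (g : MvPolynomial σ F) : ¬ Irreducible g := by
  intro hg
  obtain ⟨a, rfl⟩ := MvPolynomial.C_surjective (σ := σ) g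
  by_cases ha : a = 0
  · rw [ha, map_zero] at hg
    exact hg.ne_zero rfl
  · exact hg.not_isUnit ((isUnit_iff_ne_zero.2 ha).map _)

/-- **Towers of log general type.** -/
theorem general_type {N l : ℕ}
    {E : Fin (l + 1) → IntermediateField ℂ K} {D : Fin (l + 1) → ℕ} {e : Fin l → ℕ}
    {y : Fin (N + 1) → K} {Δ Γ A : Place ℂ K → ℚ}
    (hy : IsPair y (D (Fin.last l)) Δ) (hΓ : Effective y Γ) (hA : Effective y A)
    (hps : PseudoEffective y (D (Fin.last l)) (Δ - Γ) A)
    (hT : Pool.Agent.X180.OM.IsMixedTower (Relevant y (D (Fin.last l)) Δ Γ A)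
      (fun P => (Δ P : ℝ)) E D e e)
    (hbase : ∀ lam' : ℕ, HasForms (D 0 + ∑ i, e i) (Relevant y (D (Fin.last l)) Δ Γ A)
      (hor (E 0) fun P => (Δ P : ℝ)) (E 0) (∑ i, e i) lam' →
      KodairaGe (D 0 + ∑ i, e i) (Relevant y (D (Fin.last l)) Δ Γ A)
        (fun P => (Δ P : ℝ)) (D 0 + lam')) :
    ∀ Δ', Above y Δ Γ Δ' →
      kodairaDim y (D (Fin.last l)) Δ' = ((D (Fin.last l) : ℕ) : WithBot ℕ) := by
  have hδ : ∀ P ∈ Relevant y (D (Fin.last l)) Δ Γ A, (0 : ℝ) ≤ (Δ P : ℝ) := fun P hP =>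
    Rat.cast_nonneg.2 (hy.2.2.1 P hP.1)
  have h1 := mix_forms hδ (hT : IsMixedTower (Relevant y (D (Fin.last l)) Δ Γ A)
    (fun P => (Δ P : ℝ)) E D e e) hy.2.1 (add_zero (D (Fin.last l))).symm
    (zero_forms hδ (E (Fin.last l)))
  rw [add_zero] at h1
  have hsum : D (Fin.last l) = D 0 + ∑ i, e i := dims fun i => (hT.2 i).2.1
  have h2 : KodairaGe (D (Fin.last l)) (Relevant y (D (Fin.last l)) Δ Γ A)
      (fun P => (Δ P : ℝ)) (D (Fin.last l)) := by
    have h3 := hbase (∑ i, e i) (by rw [← hsum]; exact h1)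
    rw [← hsum] at h3
    exact h3
  have halg := alg_of_trdeg hy.2.1 (hT.1 (Fin.last l))
  have e0 : D (Fin.last l) + ∑ j : Fin 0, (Fin.elim0 j : ℕ) = D (Fin.last l) := by simp
  have hu : IsTranscendenceBasis (upF K (E (Fin.last l)))
      (fun s : (Σ j : Fin 0, Fin (Fin.elim0 j : ℕ)) => (Fin.elim0 s.1 : K)) := by
    have : IsEmpty (Σ j : Fin 0, Fin (Fin.elim0 j : ℕ)) := ⟨fun s => s.1.elim0⟩
    have h4 : Algebra.IsAlgebraic (upF K (E (Fin.last l))) K := by
      refine ⟨fun z => ?_⟩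
      have h5 : IsAlgebraic (E (Fin.last l)) z := halg.isAlgebraic z
      let i : E (Fin.last l) →+* upF K (E (Fin.last l)) :=
        (algebraMap (E (Fin.last l)) K).codRestrict
          (upF K (E (Fin.last l))).toSubfield fun a => mem_upF.2 ⟨a, a.2, rfl⟩
      exact h5.ringHom_of_comp_eq i (RingHom.id K) i.injective rfl
    have h6 : AlgebraicIndependent (upF K (E (Fin.last l)))
        (fun s : (Σ j : Fin 0, Fin (Fin.elim0 j : ℕ)) => (Fin.elim0 s.1 : K)) :=
      algebraicIndependent_empty_type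
    exact h6.isTranscendenceBasis_iff_isAlgebraic.2
      ⟨fun z => (h4.isAlgebraic z).extendScalars (algebraMap (upF K (E (Fin.last l))) _).injective⟩
  have h5 : Abundance y (D (Fin.last l) + ∑ j : Fin 0, (Fin.elim0 j : ℕ)) Δ Γ (D (Fin.last l))
      (fun j : Fin 0 => Fin.elim0 j) (fun j : Fin 0 => Fin.elim0 j)
      (fun j : Fin 0 => Fin.elim0 j) := by
    refine Pool.Agent.X327.MA.abundance_of (L := E (Fin.last l)) (K' := K)
      (A := fun j : Fin 0 => Fin.elim0 j) (by rw [e0]; exact hy) hΓ hA (by rw [e0]; exact hps)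
      (fun j => j.elim0) ⟨fun j => j.elim0, fun j => j.elim0⟩ hu ?_ fun _ => ?_
    · intro a P g hg
      have : IsEmpty (Σ j : Fin 0, Fin (Fin.elim0 j : ℕ)) := ⟨fun s => s.1.elim0⟩
      exact absurd hg (no_irred g)
    · have e1 : Pool.Agent.X327.MA.big (fun j : Fin 0 => (Fin.elim0 j : ℕ))
          (fun j : Fin 0 => Fin.elim0 j) (fun j : Fin 0 => Fin.elim0 j) = 0 := by
        unfold Pool.Agent.X327.MA.big
        simp
      rw [e1, add_zero, e0]
      exact h2
  intro Δ' hΔ'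
  have h6 := (h5.2 Δ' hΔ').1
  have e2 : big (fun j : Fin 0 => (Fin.elim0 j : ℕ))
      (fun j : Fin 0 => Fin.elim0 j) (fun j : Fin 0 => Fin.elim0 j) = 0 := by
    unfold big
    simp
  rw [e2, add_zero, e0] at h6
  exact h6

end Pool.Agent.X180.OP
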