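import Pool.Agent.X180.OP.Defs

/-!
Definitions: abundance for pairs and negligible divisors.
-/

set_option autoImplicit false

open FF Pool.Agent.W602.GT Pool.Agent.Y172 Pool.Agent.Y191

namespace Pool.Agent.X180.OP

variable {K : Type} [Field K] [Algebra ℂ K] {N : ℕ}

/-- `K_X + D` is pseudo-effective, tested with the effective divisor `A`: the divisor
`m (K_X + D) + A` has a section `≠ 0` for arbitrarily large `m`. -/
def PseudoEffective (y : Fin (N + 1) → K) (n : ℕ) (D A : Place ℂ K → ℚ) : Prop :=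
  ∀ m₁ : ℕ, ∃ m : ℕ, m₁ ≤ m ∧ ∃ s, IsSection y n m (m • D + A) s ∧ s ≠ 0

/-- The prime divisor `P` is negligible: it is in the support of `Γ`, or in the base locus of
`m (K_X + Δ + η A)` for all `m ≥ 1` and all small `η ≥ 0`. -/
def Negligible (y : Fin (N + 1) → K) (n : ℕ) (Δ Γ A : Place ℂ K → ℚ) (P : Place ℂ K) : Prop :=
  Γ P ≠ 0 ∨ ∃ η₀ : ℚ, 0 < η₀ ∧ ∀ (m : ℕ) (η : ℚ), 1 ≤ m → 0 ≤ η → η ≤ η₀ →
    ∀ ω, IsSection y n m (m • (Δ + η • A)) ω → ω ≠ 0 → ¬ OrdEq P ω (-(m * (Δ P + η * A P)))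

/-- The prime divisors of `X` which are not negligible. -/
def Relevant (y : Fin (N + 1) → K) (n : ℕ) (Δ Γ A : Place ℂ K → ℚ) : Set (Place ℂ K) :=
  {P | IsPrimeDivisor y P ∧ ¬ Negligible y n Δ Γ A P}

/-- The `ℚ`-divisor `Δ'` is equal to `Δ` outside of the support of `Γ`, and larger than `Δ - Γ` along
all components of `Γ`. -/
def Above (y : Fin (N + 1) → K) (Δ Γ Δ' : Place ℂ K → ℚ) : Prop :=
  ∀ P, IsPrimeDivisor y P → (Γ P = 0 → Δ' P = Δ P) ∧ (Γ P ≠ 0 → Δ P - Γ P < Δ' P)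

/-- The sums of the weights are at least `r j + 1`, and for all `Δ'` which are equal to `Δ` outside
of `Γ` and larger than `Δ - Γ` along `Γ` the Kodaira dimension and the numerical dimension (with
respect to any effective integral divisor `A`) of `K_X + Δ'` are `p + big`. -/
def Abundance (y : Fin (N + 1) → K) (n : ℕ) (Δ Γ : Place ℂ K → ℚ) (p : ℕ) {c : ℕ}
    (r s : Fin c → ℕ) (w : ∀ j, Fin (s j) → ℚ) : Prop :=
  (∀ j, (r j + 1 : ℚ) ≤ ∑ i, w j i) ∧ ∀ Δ', Above y Δ Γ Δ' →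
    kodairaDim y n Δ' = ((p + big r s w : ℕ) : WithBot ℕ) ∧
      ∀ A, Effective y A → Integral y A → numericalDim y n Δ' A = ((p + big r s w : ℕ) : EReal)

end Pool.Agent.X180.OP
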