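import Pool.Agent.X180.OP.Defs
import Pool.Agent.X180.OT.Forms
import Pool.Agent.X180.Iso.SysPair
import Pool.Agent.Y191.DimGe

/-!
Nonvanishing for pairs over orbifold towers: the proof.
-/

set_option autoImplicit false
set_option linter.overlappingInstances false

open FF Pool.Agent.W602.GT Pool.Agent.Y172 Pool.Agent.Y191
open Pool.Agent.X180.TP (dims exists_idx)
open Pool.Agent.X180.Tow (HasForms hor_nonneg)
open Pool.Agent.X180.Iso (hor)

namespace Pool.Agent.X180.OP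

theorem toOT {K : Type} [Field K] [Algebra ℂ K] {S : Set (Place ℂ K)} {δ : Place ℂ K → ℝ} {l : ℕ}
    {E : Fin (l + 1) → IntermediateField ℂ K} {D : Fin (l + 1) → ℕ} {e lam : Fin l → ℕ}
    (h : IsOrbifoldTower S δ E D e lam) : Pool.Agent.X180.OT.IsOrbifoldTower S δ E D e lam := h

/-- the forms -/
theorem top_forms {K : Type} [Field K] [Algebra ℂ K] {N l c : ℕ}
    {E : Fin (l + 1) → IntermediateField ℂ K} {D : Fin (l + 1) → ℕ} {e lam : Fin l → ℕ}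
    {r s : Fin c → ℕ} {y : Fin (N + 1) → K} {Δ : Place ℂ K → ℚ} {S : Set (Place ℂ K)}
    (hS : ∀ P ∈ S, IsPrimeDivisor y P) (hy : IsPair y (D (Fin.last l) + ∑ j, r j) Δ)
    (hT : IsOrbifoldTower S (fun P => (Δ P : ℝ)) E D e lam) {w : ∀ j, Fin (s j) → ℚ}
    (hF : Fibres y (D (Fin.last l) + ∑ j, r j) Δ S (E (Fin.last l)) r s w)
    (hws : ∀ j, (r j + 1 : ℚ) ≤ ∑ i, w j i) :
    HasForms (D 0 + (∑ i, e i + ∑ j, r j)) S (hor (E 0) fun P => (Δ P : ℝ)) (E 0)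
      (∑ i, e i + ∑ j, r j) (∑ i, lam i + big r s w) := by
  obtain ⟨hw, K', _, _, _, _, _, B, u, hB, hu, hH, hC⟩ := hF
  obtain ⟨κ, hκ, hκs⟩ := exists_idx r s w
  have hδ : ∀ P ∈ S, (0 : ℝ) ≤ (Δ P : ℝ) := fun P hP =>
    Rat.cast_nonneg.2 (hy.2.2.1 P (hS P hP))
  have h0 : HasForms (D (Fin.last l) + ∑ j, r j) S
      (hor (E (Fin.last l)) fun P => (Δ P : ℝ)) (E (Fin.last l)) (∑ j, r j)
      (Pool.Agent.X180.TP.big r s w) :=
    lc_low (N := D (Fin.last l) + ∑ j, r j)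
      (Pool.Agent.X180.Iso.trdeg_rel' hy.2.1 (hT.1 _)) hB finSigmaFinEquiv hu
      (fun j i => ((hw j).2 i).1) hws hκ hκs
      (fun P hP => hor_nonneg (hδ P hP)) (Pool.Agent.X180.Iso.lcHor_hor hH)
  have h1 := Pool.Agent.X180.OT.orb_forms hδ (toOT hT) hy.2.1 rfl h0
  have hn : D (Fin.last l) + ∑ j, r j = D 0 + (∑ i, e i + ∑ j, r j) := by
    rw [dims fun i => (hT.2 i).2.1, add_assoc]
  rw [hn] at h1
  exact h1

/-- **Nonvanishing for pairs over orbifold towers.** -/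
theorem non_gen {K : Type} [Field K] [Algebra ℂ K] {N l c k : ℕ}
    {E : Fin (l + 1) → IntermediateField ℂ K} {D : Fin (l + 1) → ℕ} {e lam : Fin l → ℕ}
    {r s : Fin c → ℕ} {y : Fin (N + 1) → K} {Δ : Place ℂ K → ℚ}
    (hy : IsPair y (D (Fin.last l) + ∑ j, r j) Δ)
    (hT : IsOrbifoldTower {P | IsPrimeDivisor y P} (fun P => (Δ P : ℝ)) E D e lam)
    {w : ∀ j, Fin (s j) → ℚ}
    (hF : Fibres y (D (Fin.last l) + ∑ j, r j) Δ {P | IsPrimeDivisor y P} (E (Fin.last l)) r s w)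
    (hbase : ∀ lam' : ℕ, HasForms (D 0 + (∑ i, e i + ∑ j, r j)) {P | IsPrimeDivisor y P}
      (hor (E 0) fun P => (Δ P : ℝ)) (E 0) (∑ i, e i + ∑ j, r j) lam' →
      KodairaGe (D 0 + (∑ i, e i + ∑ j, r j)) {P | IsPrimeDivisor y P}
        (fun P => (Δ P : ℝ)) (k + lam')) :
    Nonvanishing y (D (Fin.last l) + ∑ j, r j) Δ (k + ∑ i, lam i + big r s w) r s w := by
  have h1 := top_forms (fun _ h => h) hy hT hF
  obtain ⟨hw, K', _, _, _, _, _, B, u, hB, hu, hH, hC⟩ := hF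
  have hn : D (Fin.last l) + ∑ j, r j = D 0 + (∑ i, e i + ∑ j, r j) := by
    rw [dims fun i => (hT.2 i).2.1, add_assoc]
  refine ⟨fun hws => ?_, (lc_ab hy.1 hy.2.1 hy.2.2 hB.1 hu (fun j => (hw j).1)
    (fun j i => ((hw j).2 i).1) (fun j i => ((hw j).2 i).2) hC).1⟩
  refine lc_nv hy.1 hy.2.1 hy.2.2 hB.1 hu (fun j => (hw j).1)
    (fun j i => ((hw j).2 i).1) (fun j i => ((hw j).2 i).2) hC hws (by omega) ?_
  have h2 := hbase _ (h1 hws)
  rw [← hn, ← add_assoc k] at h2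
  exact h2

end Pool.Agent.X180.OP
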