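import Pool.Agent.X180.OP.AbDefs
import Pool.Agent.X180.OP.Non
import Pool.Agent.X180.OT.Pairs

/-!
Abundance for pairs over orbifold towers, in the language of `OP`.
-/

set_option autoImplicit false
set_option linter.overlappingInstances false

open FF Pool.Agent.W602.GT Pool.Agent.Y172 Pool.Agent.Y191
open Pool.Agent.X180.TP (dims)
open Pool.Agent.X180.Tow (HasForms)
open Pool.Agent.X180.Iso (hor)

namespace Pool.Agent.X180.OP

/-- **Pairs over orbifold towers.** -/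
theorem ab_gen {K : Type} [Field K] [Algebra ℂ K] {N l c : ℕ}
    {E : Fin (l + 1) → IntermediateField ℂ K} {D : Fin (l + 1) → ℕ} {e lam : Fin l → ℕ}
    {r s : Fin c → ℕ} {y : Fin (N + 1) → K} {Δ Γ A : Place ℂ K → ℚ}
    (hy : IsPair y (D (Fin.last l) + ∑ j, r j) Δ) (hΓ : Effective y Γ) (hA : Effective y A)
    (hps : PseudoEffective y (D (Fin.last l) + ∑ j, r j) (Δ - Γ) A)
    (hT : IsOrbifoldTower (Relevant y (D (Fin.last l) + ∑ j, r j) Δ Γ A)
      (fun P => (Δ P : ℝ)) E D e lam) (hle : ∀ i, lam i = e i) {w : ∀ j, Fin (s j) → ℚ}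
    (hF : Fibres y (D (Fin.last l) + ∑ j, r j) Δ (Relevant y (D (Fin.last l) + ∑ j, r j) Δ Γ A)
      (E (Fin.last l)) r s w)
    (hbase : ∀ lam' : ℕ, HasForms (D 0 + (∑ i, e i + ∑ j, r j))
      (Relevant y (D (Fin.last l) + ∑ j, r j) Δ Γ A)
      (hor (E 0) fun P => (Δ P : ℝ)) (E 0) (∑ i, e i + ∑ j, r j) lam' →
      KodairaGe (D 0 + (∑ i, e i + ∑ j, r j))
        (Relevant y (D (Fin.last l) + ∑ j, r j) Δ Γ A)
        (fun P => (Δ P : ℝ)) (D 0 + lam')) :
    Abundance y (D (Fin.last l) + ∑ j, r j) Δ Γ (D (Fin.last l)) r s w :=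
  Pool.Agent.X180.OT.pairs_gen hy hΓ hA hps hT hle hF hbase

end Pool.Agent.X180.OP
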