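import Pool.Agent.Y191.LcCan

/-!
Definitions: pairs, and towers of fibrations with boundaries and multiplicities on the variety.
-/

set_option autoImplicit false

open FF Pool.Agent.W602.GT Pool.Agent.Y172 Pool.Agent.Y191

namespace Pool.Agent.X180.OP

variable {K : Type} [Field K] [Algebra ℂ K] {N : ℕ}

/-- `(X, Δ)` is a projective pair of dimension `n`: `X` is normal, with generic point `y`, and `Δ` is
an effective `ℚ`-divisor. -/
def IsPair (y : Fin (N + 1) → K) (n : ℕ) (Δ : Place ℂ K → ℚ) : Prop :=
  NormalModel y ∧ Algebra.trdeg ℂ K = n ∧ Effective y Δ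

/-- the sum of the dimensions `r j` for which the sum of the weights is greater than `r j + 1` -/
def big {c : ℕ} (r s : Fin c → ℕ) (w : ∀ j, Fin (s j) → ℚ) : ℕ :=
  ∑ j, if (r j + 1 : ℚ) < ∑ i, w j i then r j else 0

/-- Let `K`, `E` and `L` be the function fields of `X`, `W` and `Z`, with dominant rational maps
`X ⇢ W ⇢ Z`, where `W` has dimension `e` over `Z`; let `S` be a set of prime divisors of `X`, and
`δ P` the coefficient of `P` in the boundary. The fibres of `W` over `Z`, with the boundary and the
multiplicities of the fibres of `X` over `W`, correspond to moving log canonical arrangements, and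
their log Kodaira dimension is `lam`: there is a variety `X'` with a generically finite map `X' ⇢ X`,
with the function field `K'`, and the `u ⟨j, k⟩` are the affine coordinates of a rational map, over
`Z`, of `X'` to a product of projective spaces of dimensions `r j ≥ 1`, which has the same fibres as
the map to `W`, up to finite maps (the `u ⟨j, k⟩` are algebraic over `E`, and their number is `e`);
`A j i` are the coefficients of hyperplanes, algebraic over `L`, with weights `w j i` such that the
arrangement is log canonical (`LcArr`); the sum of the weights is at least `r j + 1`, and `lam` is the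
sum of the `r j` for which it is greater. The multiplicities are bounded (`LcHor`) at the places over
those prime divisors of `X` in `S` only which dominate `Z` and do not dominate `W`. -/
def OrbifoldFibres (S : Set (Place ℂ K)) (δ : Place ℂ K → ℝ) (E L : IntermediateField ℂ K)
    (e lam : ℕ) : Prop :=
  ∃ (c : ℕ) (r s : Fin c → ℕ) (w : ∀ j, Fin (s j) → ℚ), e = ∑ j, r j ∧ lam = big r s w ∧
  (∀ j, 1 ≤ r j ∧ (∀ i, 0 ≤ w j i) ∧ (r j + 1 : ℚ) ≤ ∑ i, w j i) ∧
  ∃ (K' : Type) (_ : Field K') (_ : Algebra ℂ K') (_ : Algebra K K') (_ : IsScalarTower ℂ K K')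
    (_ : FiniteDimensional K K') (A : ∀ j, Fin (s j) → Fin (r j + 1) → K')
    (u : (Σ j, Fin (r j)) → K'),
    LcArr (upF K' L) A w ∧ AlgebraicIndependent (upF K' L) u ∧
    (∀ b, IsAlgebraic (upF K' E) (u b)) ∧
    LcHor L A u w {P | P ∈ S ∧ ∃ f ∈ E, f ≠ 0 ∧ P.ord f ≠ 0} δ

/-- The tower `X ⇢ W_l ⇢ ... ⇢ W_1 ⇢ W_0`: the `E i` are the function fields of varieties of
dimensions `D i`, each contained in the next one, and the fibres of `W_{i+1}` over `W_i`, of dimension
`e i`, with the boundary and the multiplicities of the fibres of `X` over `W_{i+1}`, are as in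
`OrbifoldFibres`, of log Kodaira dimension `lam i`, for each `i < l`. -/
def IsOrbifoldTower (S : Set (Place ℂ K)) (δ : Place ℂ K → ℝ) {l : ℕ}
    (E : Fin (l + 1) → IntermediateField ℂ K) (D : Fin (l + 1) → ℕ) (e lam : Fin l → ℕ) : Prop :=
  (∀ i, Algebra.trdeg ℂ (E i) = D i) ∧
  ∀ i : Fin l, E i.castSucc ≤ E i.succ ∧ D i.succ = D i.castSucc + e i ∧
    OrbifoldFibres S δ (E i.succ) (E i.castSucc) (e i) (lam i)

/-- There is a finite extension `K'` of `K`, and the `u ⟨j, k⟩` are the affine coordinates of a
generically finite map, over the variety with the function field `L`, of a variety with the function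
field `K'` to a product of projective spaces of dimensions `r j ≥ 1`; `A j i` are the coefficients of
hyperplanes, algebraic over `L`, with weights `w j i` in `[0, 1]` such that the arrangement is log
canonical (`LcArr`). The pull back of `K_X + Δ` to `K'` is compared with the pull back of the
canonical divisor of the relative product plus `∑ w j i (A j i = 0)` at the places over the prime
divisors of `X` in `S` which are trivial on `L` (`LcHor`) and at the places over the prime divisors of
the product (`Cor`). -/
def Fibres (y : Fin (N + 1) → K) (n : ℕ) (Δ : Place ℂ K → ℚ) (S : Set (Place ℂ K))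
    (L : IntermediateField ℂ K) {c : ℕ} (r s : Fin c → ℕ) (w : ∀ j, Fin (s j) → ℚ) : Prop :=
  (∀ j, 1 ≤ r j ∧ ∀ i, 0 ≤ w j i ∧ w j i ≤ 1) ∧
  ∃ (K' : Type) (_ : Field K') (_ : Algebra ℂ K') (_ : Algebra K K') (_ : IsScalarTower ℂ K K')
    (_ : FiniteDimensional K K') (A : ∀ j, Fin (s j) → Fin (r j + 1) → K')
    (u : (Σ j, Fin (r j)) → K'),
    LcArr (upF K' L) A w ∧ IsTranscendenceBasis (upF K' L) u ∧
    LcHor L A u w S (fun P => (Δ P : ℝ)) ∧ Cor y n Δ (upF K' L) A u w

/-- If the sums of the weights are at least `r j + 1` then the Kodaira dimension of `K_X + Δ` is at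
least `k`; otherwise the Kodaira dimension and the numerical dimension (with respect to any effective
divisor `A`) are `-∞`. -/
def Nonvanishing (y : Fin (N + 1) → K) (n : ℕ) (Δ : Place ℂ K → ℚ) (k : ℕ) {c : ℕ}
    (r s : Fin c → ℕ) (w : ∀ j, Fin (s j) → ℚ) : Prop :=
  ((∀ j, (r j + 1 : ℚ) ≤ ∑ i, w j i) → (k : WithBot ℕ) ≤ kodairaDim y n Δ) ∧
  ((∃ j, ∑ i, w j i < (r j + 1 : ℚ)) → kodairaDim y n Δ = ⊥ ∧
    ∀ A, Effective y A → numericalDim y n Δ A = ⊥)

end Pool.Agent.X180.OP
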