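import Pool.Agent.X180.OP.Defs

/-!
Definitions: towers whose steps are fibrations with boundaries and multiplicities on the variety, or
isotrivial.
-/

set_option autoImplicit false

open FF Pool.Agent.W602.GT Pool.Agent.Y172 Pool.Agent.Y191

namespace Pool.Agent.X180.OP

variable {K : Type} [Field K] [Algebra ℂ K]

/-- The subfield `L` of `K` as a subfield of `E`, if `L` is contained in `E`. -/
noncomputable def below (E L : IntermediateField ℂ K) : IntermediateField ℂ E := L.comap E.val

/-- Let `E` and `L` be the function fields of varieties `W` and `Z`, with a dominant rational map from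
`W` to `Z`. After a generically finite base change `Z' → Z` the variety `W ×_Z Z'` has a generically
finite rational map to `Z' × V`, where `V` is a smooth projective variety of dimension `e` and Kodaira
dimension at least `lam`: there is an extension `K'` of `E`, the function field of `W ×_Z Z'`,
generated by an element `α` which is algebraic over `L`, and a subfield `M` of `K'`, the function
field of `V`, such that `K'` is algebraic over the field generated by `M` and the elements which are
algebraic over `L`. `KodGe ℂ M e (fun _ => False) lam`: the Kodaira dimension of `V` is at least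
`lam`. -/
def IsotrivialFibres (E L : IntermediateField ℂ K) (e lam : ℕ) : Prop :=
  Algebra.EssFiniteType ℂ E ∧
  ∃ (K' : Type) (_ : Field K') (_ : Algebra ℂ K') (_ : Algebra E K') (_ : IsScalarTower ℂ E K')
    (α : K') (M : IntermediateField ℂ K'),
    IsAlgebraic (below E L) α ∧ IntermediateField.adjoin E {α} = ⊤ ∧
    Algebra.EssFiniteType ℂ M ∧ Algebra.trdeg ℂ M = e ∧ KodGe ℂ M e (fun _ => False) lam ∧
    ∀ z : K', IsAlgebraic
      (IntermediateField.adjoin ℂ ({a : K' | IsAlgebraic (below E L) a} ∪ M)) z

/-- The tower `X ⇢ W_l ⇢ ... ⇢ W_1 ⇢ W_0`: the `E i` are the function fields of varieties of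
dimensions `D i`, each contained in the next one, and the fibres of `W_{i+1}` over `W_i`, of dimension
`e i`, are as in `OrbifoldFibres` (with the boundary and the multiplicities of the fibres of `X` over
`W_{i+1}`) or as in `IsotrivialFibres`, of (log) Kodaira dimension `lam i`, for each `i < l`. -/
def IsMixedTower (S : Set (Place ℂ K)) (δ : Place ℂ K → ℝ) {l : ℕ}
    (E : Fin (l + 1) → IntermediateField ℂ K) (D : Fin (l + 1) → ℕ) (e lam : Fin l → ℕ) : Prop :=
  (∀ i, Algebra.trdeg ℂ (E i) = D i) ∧
  ∀ i : Fin l, E i.castSucc ≤ E i.succ ∧ D i.succ = D i.castSucc + e i ∧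
    (OrbifoldFibres S δ (E i.succ) (E i.castSucc) (e i) (lam i) ∨
      IsotrivialFibres (E i.succ) (E i.castSucc) (e i) (lam i))

end Pool.Agent.X180.OP
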