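import Pool.Agent.X180.OP.Ab
import Pool.Agent.X180.OP.MixDefs

/-!
Pairs over towers with orbifold steps and isotrivial steps: the proof.
-/

set_option autoImplicit false
set_option linter.overlappingInstances false

open FF Pool.Agent.W602.GT Pool.Agent.Y172 Pool.Agent.Y191 Pool.Agent.X180.Orb
open Pool.Agent.X180.TP (dims exists_idx)
open Pool.Agent.X180.Tow (HasForms dn trdeg_dn hor_nonneg hor_le rs)
open Pool.Agent.X180.Iso (hor)
open Pool.Agent.TH585.SV (lft)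

namespace Pool.Agent.X180.OP

variable {K : Type} [Field K] [Algebra ℂ K]

/-- the forms of an isotrivial step -/
theorem part_iso {E L : IntermediateField ℂ K} (hLE : L ≤ E) {N d e lam : ℕ}
    (hK : Algebra.trdeg ℂ K = N) (hL : Algebra.trdeg ℂ L = d)
    (hE : Algebra.trdeg ℂ E = (d + e : ℕ)) {S : Set (Place ℂ K)} {δ : Place ℂ K → ℝ}
    (hδ : ∀ P ∈ S, 0 ≤ δ P) (h : IsotrivialFibres E L e lam) :
    HasPart N S (fun P => hor L δ P - hor E δ P) E L e lam := by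
  obtain ⟨_, K', _, _, _, _, α, M, hα, htop, _, hM, hk, hdom⟩ := h
  have hfin : FiniteDimensional E K' := Pool.Agent.X180.Iso.fin_of_top hα htop
  have hL' : Algebra.trdeg ℂ (dn E L) = d := trdeg_dn hLE hL
  have h1 : Algebra.trdeg (dn E L) E = e := Pool.Agent.X180.Iso.trdeg_rel hE hL'
  refine (part_of_forms hLE hK hE hL ?_ S).mono fun P hP => sub_nonneg.2 (hor_le hLE (hδ P hP))
  exact Pool.Agent.X180.Iso.fib_forms hE h1 hα htop M hM
    (fun z => Pool.Agent.X180.Iso.alg_acl M (hdom z)) hk _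

/-- **Mixed towers.** -/
theorem mix_forms {N e' lam' l : ℕ}
    {S : Set (Place ℂ K)} {δ : Place ℂ K → ℝ} (hδ : ∀ P ∈ S, 0 ≤ δ P)
    {E : Fin (l + 1) → IntermediateField ℂ K}
    {D : Fin (l + 1) → ℕ} {e lam : Fin l → ℕ} (hT : IsMixedTower S δ E D e lam)
    (hN : Algebra.trdeg ℂ K = N) (hNe : N = D (Fin.last l) + e')
    (h0 : HasForms N S (hor (E (Fin.last l)) δ) (E (Fin.last l)) e' lam') :
    HasForms N S (hor (E 0) δ) (E 0) (∑ i, e i + e') (∑ i, lam i + lam') := by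
  refine chain_part hN l E (fun i => (hT.2 i).1) D hT.1 e lam (fun i => (hT.2 i).2.1) hNe
    (fun i => ?_) h0
  have h1 : ∃ e'', N = D i.castSucc + e'' := by
    have h2 : D i.castSucc ≤ N := by
      have h3 : Algebra.trdeg ℂ (E i.castSucc) ≤ Algebra.trdeg ℂ K := by
        rw [← _root_.trdeg_add_eq ℂ (E i.castSucc) (A := K)]
        exact self_le_add_right _ _
      rw [hT.1, hN] at h3
      exact_mod_cast h3
    exact ⟨N - D i.castSucc, by omega⟩
  obtain ⟨e'', he''⟩ := h1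
  rcases (hT.2 i).2.2 with h | h
  · exact Pool.Agent.X180.OT.part_orb (hT.2 i).1 hN he'' (hT.1 _) (by rw [hT.1, (hT.2 i).2.1]) hδ h
  · exact part_iso (hT.2 i).1 hN (hT.1 _) (by rw [hT.1, (hT.2 i).2.1]) hδ h

/-- the forms -/
theorem mix_top {N l c : ℕ}
    {E : Fin (l + 1) → IntermediateField ℂ K} {D : Fin (l + 1) → ℕ} {e lam : Fin l → ℕ}
    {r s : Fin c → ℕ} {y : Fin (N + 1) → K} {Δ : Place ℂ K → ℚ} {S : Set (Place ℂ K)}
    (hS : ∀ P ∈ S, IsPrimeDivisor y P) (hy : IsPair y (D (Fin.last l) + ∑ j, r j) Δ)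
    (hT : IsMixedTower S (fun P => (Δ P : ℝ)) E D e lam) {w : ∀ j, Fin (s j) → ℚ}
    (hF : Fibres y (D (Fin.last l) + ∑ j, r j) Δ S (E (Fin.last l)) r s w)
    (hws : ∀ j, (r j + 1 : ℚ) ≤ ∑ i, w j i) :
    HasForms (D 0 + (∑ i, e i + ∑ j, r j)) S (hor (E 0) fun P => (Δ P : ℝ)) (E 0)
      (∑ i, e i + ∑ j, r j) (∑ i, lam i + big r s w) := by
  obtain ⟨hw, K', _, _, _, _, _, B, u, hB, hu, hH, hC⟩ := hF
  obtain ⟨κ, hκ, hκs⟩ := exists_idx r s w
  have hδ : ∀ P ∈ S, (0 : ℝ) ≤ (Δ P : ℝ) := fun P hP =>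
    Rat.cast_nonneg.2 (hy.2.2.1 P (hS P hP))
  have h0 : HasForms (D (Fin.last l) + ∑ j, r j) S
      (hor (E (Fin.last l)) fun P => (Δ P : ℝ)) (E (Fin.last l)) (∑ j, r j)
      (Pool.Agent.X180.TP.big r s w) :=
    lc_low (N := D (Fin.last l) + ∑ j, r j)
      (Pool.Agent.X180.Iso.trdeg_rel' hy.2.1 (hT.1 _)) hB finSigmaFinEquiv hu
      (fun j i => ((hw j).2 i).1) hws hκ hκs
      (fun P hP => hor_nonneg (hδ P hP)) (Pool.Agent.X180.Iso.lcHor_hor hH)
  have h1 := mix_forms hδ hT hy.2.1 rfl h0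
  have hn : D (Fin.last l) + ∑ j, r j = D 0 + (∑ i, e i + ∑ j, r j) := by
    rw [dims fun i => (hT.2 i).2.1, add_assoc]
  rw [hn] at h1
  exact h1

/-- **Nonvanishing for pairs over mixed towers.** -/
theorem non_mix {N l c k : ℕ}
    {E : Fin (l + 1) → IntermediateField ℂ K} {D : Fin (l + 1) → ℕ} {e lam : Fin l → ℕ}
    {r s : Fin c → ℕ} {y : Fin (N + 1) → K} {Δ : Place ℂ K → ℚ}
    (hy : IsPair y (D (Fin.last l) + ∑ j, r j) Δ)
    (hT : IsMixedTower {P | IsPrimeDivisor y P} (fun P => (Δ P : ℝ)) E D e lam)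
    {w : ∀ j, Fin (s j) → ℚ}
    (hF : Fibres y (D (Fin.last l) + ∑ j, r j) Δ {P | IsPrimeDivisor y P} (E (Fin.last l)) r s w)
    (hbase : ∀ lam' : ℕ, HasForms (D 0 + (∑ i, e i + ∑ j, r j)) {P | IsPrimeDivisor y P}
      (hor (E 0) fun P => (Δ P : ℝ)) (E 0) (∑ i, e i + ∑ j, r j) lam' →
      KodairaGe (D 0 + (∑ i, e i + ∑ j, r j)) {P | IsPrimeDivisor y P}
        (fun P => (Δ P : ℝ)) (k + lam')) :
    Nonvanishing y (D (Fin.last l) + ∑ j, r j) Δ (k + ∑ i, lam i + big r s w) r s w := by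
  have h1 := mix_top (fun _ h => h) hy hT hF
  obtain ⟨hw, K', _, _, _, _, _, B, u, hB, hu, hH, hC⟩ := hF
  have hn : D (Fin.last l) + ∑ j, r j = D 0 + (∑ i, e i + ∑ j, r j) := by
    rw [dims fun i => (hT.2 i).2.1, add_assoc]
  refine ⟨fun hws => ?_, (lc_ab hy.1 hy.2.1 hy.2.2 hB.1 hu (fun j => (hw j).1)
    (fun j i => ((hw j).2 i).1) (fun j i => ((hw j).2 i).2) hC).1⟩
  refine lc_nv hy.1 hy.2.1 hy.2.2 hB.1 hu (fun j => (hw j).1)
    (fun j i => ((hw j).2 i).1) (fun j i => ((hw j).2 i).2) hC hws (by omega) ?_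
  have h2 := hbase _ (h1 hws)
  rw [← hn, ← add_assoc k] at h2
  exact h2

/-- **Abundance for pairs over mixed towers.** -/
theorem ab_mix {N l c : ℕ}
    {E : Fin (l + 1) → IntermediateField ℂ K} {D : Fin (l + 1) → ℕ} {e lam : Fin l → ℕ}
    {r s : Fin c → ℕ} {y : Fin (N + 1) → K} {Δ Γ A : Place ℂ K → ℚ}
    (hy : IsPair y (D (Fin.last l) + ∑ j, r j) Δ) (hΓ : Effective y Γ) (hA : Effective y A)
    (hps : PseudoEffective y (D (Fin.last l) + ∑ j, r j) (Δ - Γ) A)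
    (hT : IsMixedTower (Relevant y (D (Fin.last l) + ∑ j, r j) Δ Γ A)
      (fun P => (Δ P : ℝ)) E D e lam) (hle : ∀ i, lam i = e i) {w : ∀ j, Fin (s j) → ℚ}
    (hF : Fibres y (D (Fin.last l) + ∑ j, r j) Δ (Relevant y (D (Fin.last l) + ∑ j, r j) Δ Γ A)
      (E (Fin.last l)) r s w)
    (hbase : ∀ lam' : ℕ, HasForms (D 0 + (∑ i, e i + ∑ j, r j))
      (Relevant y (D (Fin.last l) + ∑ j, r j) Δ Γ A)
      (hor (E 0) fun P => (Δ P : ℝ)) (E 0) (∑ i, e i + ∑ j, r j) lam' →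
      KodairaGe (D 0 + (∑ i, e i + ∑ j, r j))
        (Relevant y (D (Fin.last l) + ∑ j, r j) Δ Γ A)
        (fun P => (Δ P : ℝ)) (D 0 + lam')) :
    Abundance y (D (Fin.last l) + ∑ j, r j) Δ Γ (D (Fin.last l)) r s w := by
  have h1 := mix_top (fun _ h => h.1) hy hT hF
  obtain ⟨hw, K', _, _, _, _, _, B, u, hB, hu, hH, hC⟩ := hF
  refine Pool.Agent.X327.MA.abundance_of hy hΓ hA hps hw hB hu hC fun hws => ?_
  have hsum : D (Fin.last l) = D 0 + ∑ i, e i := dims fun i => (hT.2 i).2.1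
  have hn : D (Fin.last l) + ∑ j, r j = D 0 + (∑ i, e i + ∑ j, r j) := by
    rw [hsum, add_assoc]
  have h2 := h1 hws
  rw [show ∑ i, lam i = ∑ i, e i from Finset.sum_congr rfl fun i _ => hle i] at h2
  have h3 := hbase _ h2
  rw [← hn, ← add_assoc (D 0), ← hsum] at h3
  exact h3

/-- forms over a point -/
theorem point_kod {N lam : ℕ} {S : Set (Place ℂ K)} {δ : Place ℂ K → ℝ}
    (h : HasForms N S δ (⊥ : IntermediateField ℂ K) N lam) : KodairaGe N S δ lam := by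
  obtain ⟨m, hm, θ, hθ, G, hG0, hind⟩ := h
  have hz : ∀ (D : Derivation ℂ K K), ∀ f ∈ (⊥ : IntermediateField ℂ K), D f = 0 := by
    intro D f hf
    obtain ⟨c, rfl⟩ := IntermediateField.mem_bot.1 hf
    exact D.map_algebraMap c
  have hG : (fun i => lft ⊥ (rs (G i)) (hz _)) = G := by
    funext i
    exact Derivation.ext fun f => rfl
  refine ⟨m, hm, fun b D => θ b (fun i => lft ⊥ (D i) (hz _)), fun b => ⟨fun A D => ?_,
    fun P hP hPd D hD => (hθ b).2 P hP hPd _ fun i f hf => hD i f hf⟩, fun i => rs (G i), ?_, ?_⟩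
  · have h1 := (hθ b).1 A (fun i => lft ⊥ (D i) (hz _))
    refine (congrArg (θ b) (funext fun i => ?_)).trans h1
    refine Derivation.ext fun f => ?_
    have h2 := Pool.Agent.X180.Tow.rs_sum (A i) (fun j => lft (⊥ : IntermediateField ℂ K) (D j)
      (hz _))
    have h3 : (fun j => rs (lft (⊥ : IntermediateField ℂ K) (D j) (hz _))) = D := by
      funext j
      exact Derivation.ext fun g => rfl
    have h4 : (∑ j, A i j • rs (lft (⊥ : IntermediateField ℂ K) (D j) (hz _))) =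
        ∑ j, A i j • D j :=
      Finset.sum_congr rfl fun j _ => by rw [congrFun h3 j]
    rw [h4] at h2
    exact (DFunLike.congr_fun h2 f).symm
  · change θ 0 (fun i => lft ⊥ (rs (G i)) (hz _)) ≠ 0
    rw [hG]
    exact hG0
  · have e1 : (fun i : Fin lam => θ i.succ (fun i => lft ⊥ (rs (G i)) (hz _)) /
        θ 0 (fun i => lft ⊥ (rs (G i)) (hz _))) = fun i : Fin lam => θ i.succ G / θ 0 G := by
      rw [hG]
    change AlgebraicIndependent ℂ (fun i : Fin lam => θ i.succ (fun i => lft ⊥ (rs (G i)) (hz _)) /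
        θ 0 (fun i => lft ⊥ (rs (G i)) (hz _)))
    rw [e1]
    exact hind.restrictScalars (algebraMap ℂ (⊥ : IntermediateField ℂ K)).injective

end Pool.Agent.X180.OP
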